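import Mathlib
import Pool.Agent.H346R2.MahlerEff

set_option autoImplicit false

namespace Pool.Agent.Results.MP_175f55_nt.WordsInMultiples

/-- Let `k ≥ 1`, `w` a word of `k` decimal digits, `s ≥ 1`, `r` a residue modulo `s` and `i₀` any
starting point.  There are an integer `1 ≤ X ≤ 10^s (10^k - 1)` and a position `i ≡ r (mod s)` with
`i₀ ≤ i ≤ 2 i₀ + k + 2 s - 2` such that the decimal digits number `i+1, …, i+k` of `X √2` are
`w 0, …, w (k-1)`. -/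
theorem result (k : ℕ) (hk : 0 < k) (w : Fin k → Fin 10) (s : ℕ) (hs : 0 < s) (r i₀ : ℕ) :
    ∃ X i : ℕ, 1 ≤ X ∧ X ≤ 10 ^ s * (10 ^ k - 1) ∧ i % s = r % s ∧ i₀ ≤ i ∧
      i ≤ 2 * i₀ + k + 2 * s - 2 ∧
      ∀ j : Fin k, ⌊((X : ℝ) * √2) * (10 : ℝ) ^ (i + 1 + (j : ℕ))⌋ % 10 = (((w j : ℕ)) : ℤ) :=
  Pool.Agent.H346R2.word_in_multiple_sqrt_two k hk w s hs r i₀

end Pool.Agent.Results.MP_175f55_nt.WordsInMultiples
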